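import Pool.Agent.helper60.AVK.SpecD

/-! # Row avk:IVS (MP_24e9c4_gt) -/

set_option autoImplicit false

namespace Pool.Agent.helper60.AVK

open MeasureTheory Matrix

/-- The inclusion of upper half-space. -/
def IVS_val (p : H3) : ℂ × ℝ := p.1

theorem IVS_emb : MeasurableEmbedding IVS_val :=
  MeasurableEmbedding.subtype_coe (measurableSet_lt measurable_const measurable_snd)

theorem IVS_vli (s : Set H3) (hs : MeasurableSet s) :
    volume s = ∫⁻ p : ℂ × ℝ in IVS_val '' s, ENNReal.ofReal (1 / p.2 ^ 3) := by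
  have hpres : MeasurePreserving IVS_val ((volume : Measure (ℂ × ℝ)).comap IVS_val)
      ((volume : Measure (ℂ × ℝ)).restrict (Set.range IVS_val)) :=
    ⟨IVS_emb.measurable, by rw [IVS_emb.map_comap]⟩
  have h1 : volume s = ∫⁻ p : H3 in s, ENNReal.ofReal (1 / (IVS_val p).2 ^ 3)
      ∂((volume : Measure (ℂ × ℝ)).comap IVS_val) := withDensity_apply _ hs
  rw [h1, hpres.setLIntegral_comp_emb IVS_emb (fun p => ENNReal.ofReal (1 / p.2 ^ 3)),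
    Measure.restrict_restrict' IVS_emb.measurableSet_range,
    Set.inter_eq_self_of_subset_left (Set.image_subset_range _ _)]

/-- The squared length. -/
noncomputable def IVS_rho (p : ℂ × ℝ) : ℝ := p.1.re ^ 2 + p.1.im ^ 2 + p.2 ^ 2

/-- The map `(z, t) ↦ (-z̄, t)`. -/
noncomputable def IVS_sig : (ℂ × ℝ) →L[ℝ] (ℂ × ℝ) :=
  (-(Complex.conjCLE : ℂ →L[ℝ] ℂ)).prodMap (ContinuousLinearMap.id ℝ ℝ)

/-- The derivative of the squared length. -/
noncomputable def IVS_drho (p : ℂ × ℝ) : (ℂ × ℝ) →L[ℝ] ℝ :=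
  (2 * p.1.re) • (Complex.reCLM.comp (ContinuousLinearMap.fst ℝ ℂ ℝ)) +
    (2 * p.1.im) • (Complex.imCLM.comp (ContinuousLinearMap.fst ℝ ℂ ℝ)) +
    (2 * p.2) • (ContinuousLinearMap.snd ℝ ℂ ℝ)

/-- The inversion. -/
noncomputable def IVS_f (p : ℂ × ℝ) : ℂ × ℝ := (IVS_rho p)⁻¹ • IVS_sig p

/-- Its derivative. -/
noncomputable def IVS_df (p : ℂ × ℝ) : (ℂ × ℝ) →L[ℝ] (ℂ × ℝ) :=
  (IVS_rho p)⁻¹ • IVS_sig + (-((IVS_rho p ^ 2)⁻¹ • IVS_drho p)).smulRight (IVS_sig p)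

theorem IVS_hasFDerivAt_rho (p : ℂ × ℝ) : HasFDerivAt IVS_rho (IVS_drho p) p := by
  have h1 : HasFDerivAt (fun q : ℂ × ℝ => q.1.re) (Complex.reCLM.comp (ContinuousLinearMap.fst ℝ ℂ ℝ)) p :=
    (Complex.reCLM.comp (ContinuousLinearMap.fst ℝ ℂ ℝ)).hasFDerivAt
  have h2 : HasFDerivAt (fun q : ℂ × ℝ => q.1.im) (Complex.imCLM.comp (ContinuousLinearMap.fst ℝ ℂ ℝ)) p :=
    (Complex.imCLM.comp (ContinuousLinearMap.fst ℝ ℂ ℝ)).hasFDerivAt
  have h3 : HasFDerivAt (fun q : ℂ × ℝ => q.2) (ContinuousLinearMap.snd ℝ ℂ ℝ) p :=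
    (ContinuousLinearMap.snd ℝ ℂ ℝ).hasFDerivAt
  have h := ((h1.pow 2).add (h2.pow 2)).add (h3.pow 2)
  have e : IVS_drho p = ((2 : ℕ) • p.1.re ^ (2 - 1)) • (Complex.reCLM.comp (ContinuousLinearMap.fst ℝ ℂ ℝ)) +
    ((2 : ℕ) • p.1.im ^ (2 - 1)) • (Complex.imCLM.comp (ContinuousLinearMap.fst ℝ ℂ ℝ)) +
    ((2 : ℕ) • p.2 ^ (2 - 1)) • (ContinuousLinearMap.snd ℝ ℂ ℝ) := by
    unfold IVS_drho
    simp
  rw [e]
  exact h

theorem IVS_hasFDerivAt (p : ℂ × ℝ) (hp : 0 < p.2) : HasFDerivAt IVS_f (IVS_df p) p := by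
  have h0 : IVS_rho p ≠ 0 := by
    unfold IVS_rho
    positivity
  have h1 : HasFDerivAt (fun q => (IVS_rho q)⁻¹) (-((IVS_rho p ^ 2)⁻¹ • IVS_drho p)) p := by
    have h2 := (hasDerivAt_inv h0).comp_hasFDerivAt p (IVS_hasFDerivAt_rho p)
    rw [neg_smul] at h2
    exact h2
  exact h1.smul IVS_sig.hasFDerivAt

/-- Coordinates. -/
noncomputable def IVS_e : (ℂ × ℝ) ≃ₗ[ℝ] (Fin 3 → ℝ) where
  toFun p := ![p.1.re, p.1.im, p.2]
  invFun v := (⟨v 0, v 1⟩, v 2)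
  map_add' p q := by
    ext i
    fin_cases i <;> simp
  map_smul' c p := by
    ext i
    fin_cases i <;> simp
  left_inv p := by simp
  right_inv v := by
    ext i
    fin_cases i <;> simp

/-- The basis. -/
noncomputable def IVS_b : Module.Basis (Fin 3) ℝ (ℂ × ℝ) := Module.Basis.ofEquivFun IVS_e

theorem IVS_e_sig (v : ℂ × ℝ) : IVS_e (IVS_sig v) = ![-v.1.re, v.1.im, v.2] := by
  ext i
  fin_cases i <;> simp [IVS_e, IVS_sig]

theorem IVS_drho_apply (p v : ℂ × ℝ) :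
    IVS_drho p v = 2 * p.1.re * v.1.re + 2 * p.1.im * v.1.im + 2 * p.2 * v.2 := by
  simp [IVS_drho]

theorem IVS_df_apply (p v : ℂ × ℝ) : IVS_e (IVS_df p v) =
    ![-((IVS_rho p)⁻¹ * v.1.re) + (IVS_rho p ^ 2)⁻¹ * (2 * p.1.re * v.1.re + 2 * p.1.im * v.1.im + 2 * p.2 * v.2) * p.1.re,
      (IVS_rho p)⁻¹ * v.1.im - (IVS_rho p ^ 2)⁻¹ * (2 * p.1.re * v.1.re + 2 * p.1.im * v.1.im + 2 * p.2 * v.2) * p.1.im,
      (IVS_rho p)⁻¹ * v.2 - (IVS_rho p ^ 2)⁻¹ * (2 * p.1.re * v.1.re + 2 * p.1.im * v.1.im + 2 * p.2 * v.2) * p.2] := by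
  have h : IVS_df p v = (IVS_rho p)⁻¹ • IVS_sig v + (-((IVS_rho p ^ 2)⁻¹ * IVS_drho p v)) • IVS_sig p := rfl
  rw [h, map_add, map_smul, map_smul, IVS_e_sig, IVS_e_sig, IVS_drho_apply]
  ext i
  fin_cases i
  · simp
  · simp
    ring
  · simp
    ring

theorem IVS_det (p : ℂ × ℝ) (hp : 0 < p.2) : (IVS_df p).det = (IVS_rho p ^ 3)⁻¹ := by
  have h0 : IVS_rho p ≠ 0 := by
    unfold IVS_rho
    positivity
  have hr : IVS_rho p = p.1.re ^ 2 + p.1.im ^ 2 + p.2 ^ 2 := rfl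
  have hent : ∀ i j, LinearMap.toMatrix IVS_b IVS_b (IVS_df p : (ℂ × ℝ) →ₗ[ℝ] (ℂ × ℝ)) i j =
      IVS_e (IVS_df p (IVS_e.symm (Pi.single j 1))) i := by
    intro i j
    rw [LinearMap.toMatrix_apply]
    simp only [IVS_b, Module.Basis.coe_ofEquivFun, Module.Basis.ofEquivFun_repr_apply]
    rfl
  rw [ContinuousLinearMap.det, ← LinearMap.det_toMatrix IVS_b, Matrix.det_fin_three]
  simp only [hent, IVS_df_apply]
  have e0 : IVS_e.symm (Pi.single 0 1) = ((1 : ℂ), (0 : ℝ)) := by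
    rw [LinearEquiv.symm_apply_eq]
    ext i
    fin_cases i <;> simp [IVS_e]
  have e1 : IVS_e.symm (Pi.single 1 1) = (Complex.I, (0 : ℝ)) := by
    rw [LinearEquiv.symm_apply_eq]
    ext i
    fin_cases i <;> simp [IVS_e]
  have e2 : IVS_e.symm (Pi.single 2 1) = ((0 : ℂ), (1 : ℝ)) := by
    rw [LinearEquiv.symm_apply_eq]
    ext i
    fin_cases i <;> simp [IVS_e]
  rw [e0, e1, e2]
  simp
  field_simp
  rw [hr]
  ring

theorem IVS_rho_f (q : ℂ × ℝ) (hq : 0 < q.2) : IVS_rho (IVS_f q) = (IVS_rho q)⁻¹ := by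
  have h0 : IVS_rho q ≠ 0 := by
    unfold IVS_rho
    positivity
  have h1 : (IVS_f q).1.re = (IVS_rho q)⁻¹ * (-q.1.re) := by simp [IVS_f, IVS_sig]
  have h2 : (IVS_f q).1.im = (IVS_rho q)⁻¹ * q.1.im := by simp [IVS_f, IVS_sig]
  have h3 : (IVS_f q).2 = (IVS_rho q)⁻¹ * q.2 := by simp [IVS_f, IVS_sig]
  have h4 : IVS_rho (IVS_f q) = (IVS_rho q)⁻¹ ^ 2 * IVS_rho q := by
    have h5 : IVS_rho (IVS_f q) = (IVS_f q).1.re ^ 2 + (IVS_f q).1.im ^ 2 + (IVS_f q).2 ^ 2 := rfl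
    have h6 : IVS_rho q = q.1.re ^ 2 + q.1.im ^ 2 + q.2 ^ 2 := rfl
    rw [h5, h1, h2, h3]
    nth_rewrite 5 [h6]
    ring
  rw [h4]
  field_simp

theorem IVS_sig_sig (q : ℂ × ℝ) : IVS_sig (IVS_sig q) = q := by
  apply IVS_e.injective
  rw [IVS_e_sig]
  ext i
  fin_cases i <;> simp [IVS_e, IVS_sig]

theorem IVS_inv (q : ℂ × ℝ) (hq : 0 < q.2) : IVS_f (IVS_f q) = q := by
  have h0 : IVS_rho q ≠ 0 := by
    unfold IVS_rho
    positivity
  have h1 : IVS_f (IVS_f q) = (IVS_rho (IVS_f q))⁻¹ • IVS_sig (IVS_f q) := rfl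
  have h2 : IVS_sig (IVS_f q) = (IVS_rho q)⁻¹ • q := by
    have h3 : IVS_f q = (IVS_rho q)⁻¹ • IVS_sig q := rfl
    rw [h3, map_smul, IVS_sig_sig]
  rw [h1, IVS_rho_f q hq, h2, inv_inv, smul_smul, mul_inv_cancel₀ h0, one_smul]

theorem IVS_val_smul (p : H3) : IVS_val (Sm • p) = IVS_f (IVS_val p) := by
  have hd : den Sm p = IVS_rho (IVS_val p) := by
    simp only [den, Sm, IVS_rho, IVS_val, H3.z, H3.t, Complex.normSq_apply]
    simp
    ring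
  have h1 : IVS_val (Sm • p) = ((act Sm p).z, (act Sm p).t) := rfl
  rw [h1]
  refine Prod.ext ?_ ?_
  · have h2 : (act Sm p).z = ((Sm 0 0 * p.z + Sm 0 1) * (starRingEnd ℂ) (Sm 1 0 * p.z + Sm 1 1) +
      Sm 0 0 * (starRingEnd ℂ) (Sm 1 0) * (p.t : ℂ) ^ 2) / (den Sm p : ℂ) := rfl
    change (act Sm p).z = (IVS_f (IVS_val p)).1
    rw [h2, hd]
    simp [Sm, IVS_f, IVS_sig, IVS_val, H3.z, H3.t]
    rw [div_eq_inv_mul, mul_neg]
  · have h2 : (act Sm p).t = p.t / den Sm p := rfl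
    change (act Sm p).t = (IVS_f (IVS_val p)).2
    rw [h2, hd]
    simp [IVS_f, IVS_sig, IVS_val, H3.t]
    rw [div_eq_inv_mul]

theorem IVS_image (s : Set H3) :
    IVS_val '' ((fun p : H3 => Sm • p) ⁻¹' s) = IVS_f '' (IVS_val '' s) := by
  ext x
  constructor
  · rintro ⟨p, hp, rfl⟩
    refine ⟨IVS_val (Sm • p), ⟨Sm • p, hp, rfl⟩, ?_⟩
    rw [IVS_val_smul, IVS_inv (IVS_val p) p.2]
  · rintro ⟨_, ⟨q, hq, rfl⟩, rfl⟩
    refine ⟨Sm • q, ?_, IVS_val_smul q⟩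
    have h1 : Sm • (Sm • q) = q := by
      apply IVS_emb.injective
      rw [IVS_val_smul, IVS_val_smul, IVS_inv (IVS_val q) q.2]
    change Sm • (Sm • q) ∈ s
    rw [h1]
    exact hq

theorem IVS : IVS_stmt := by
  intro s hs
  have : Measure.IsAddHaarMeasure (volume : Measure (ℂ × ℝ)) :=
    inferInstanceAs (Measure.IsAddHaarMeasure ((volume : Measure ℂ).prod (volume : Measure ℝ)))
  have hm : MeasurableSet (IVS_val '' s) := IVS_emb.measurableSet_image.2 hs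
  have hpos : ∀ x ∈ IVS_val '' s, 0 < x.2 := by
    rintro _ ⟨q, _, rfl⟩
    exact q.2
  have hd : ∀ x ∈ IVS_val '' s, HasFDerivWithinAt IVS_f (IVS_df x) (IVS_val '' s) x :=
    fun x hx => (IVS_hasFDerivAt x (hpos x hx)).hasFDerivWithinAt
  have hi : Set.InjOn IVS_f (IVS_val '' s) := by
    intro x hx y hy h
    rw [← IVS_inv x (hpos x hx), h, IVS_inv y (hpos y hy)]
  have hpre : MeasurableSet ((fun p : H3 => Sm • p) ⁻¹' s) := by
    rw [← IVS_emb.injective.preimage_image ((fun p : H3 => Sm • p) ⁻¹' s), IVS_image]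
    exact IVS_emb.measurable (measurable_image_of_fderivWithin hm hd hi)
  rw [IVS_vli _ hpre, IVS_vli s hs, IVS_image,
    lintegral_image_eq_lintegral_abs_det_fderiv_mul volume hm hd hi]
  apply setLIntegral_congr_fun hm
  intro x hx
  have hx0 := hpos x hx
  have h0 : 0 < IVS_rho x := by
    unfold IVS_rho
    positivity
  have h3 : (IVS_f x).2 = (IVS_rho x)⁻¹ * x.2 := by simp [IVS_f, IVS_sig]
  change ENNReal.ofReal |(IVS_df x).det| * ENNReal.ofReal (1 / (IVS_f x).2 ^ 3) = ENNReal.ofReal (1 / x.2 ^ 3)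
  rw [← ENNReal.ofReal_mul (abs_nonneg _), IVS_det x hx0, h3, abs_of_pos (by positivity)]
  congr 1
  field_simp

end Pool.Agent.helper60.AVK
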